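import Pool.Agent.Y254.Cnt

/-!
Separated unit vectors near a line.
-/

set_option autoImplicit false

open MeasureTheory Set Metric Module
open scoped ENNReal NNReal

namespace Q123.XP

open Pool.Agent.TH705.RR (E)
open Pool.Agent.Y254 (tube tube_meas Cv Cv_pos vol_near vol_tube count2 res res_sub res_norm res_w)

variable {n : ℕ}

lemma exists_orth (hn : 2 ≤ n) {w : E n} (hw : ‖w‖ = 1) : ∃ v : E n, ‖v‖ = 1 ∧ inner ℝ w v = 0 := by
  have hw0 : w ≠ 0 := by
    intro h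
    rw [h, norm_zero] at hw
    exact zero_ne_one hw
  have hf : Fact (finrank ℝ (E n) = (n - 1) + 1) := ⟨by
    rw [finrank_euclideanSpace, Fintype.card_fin]; omega⟩
  have h1 : finrank ℝ (Submodule.span ℝ {w})ᗮ = n - 1 :=
    Submodule.finrank_orthogonal_span_singleton hw0
  have hnt : Nontrivial (Submodule.span ℝ {w})ᗮ :=
    Module.nontrivial_of_finrank_pos (R := ℝ) (by omega)
  obtain ⟨v, hv⟩ := exists_ne (0 : (Submodule.span ℝ {w})ᗮ)
  have hv0 : (v : E n) ≠ 0 := fun h => hv (Subtype.ext h)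
  refine ⟨(‖(v : E n)‖)⁻¹ • (v : E n), ?_, ?_⟩
  · rw [norm_smul, norm_inv, norm_norm, inv_mul_cancel₀ (norm_ne_zero_iff.2 hv0)]
  · rw [real_inner_smul_right]
    have := (Submodule.mem_orthogonal_singleton_iff_inner_right).1 v.2
    rw [this, mul_zero]

theorem count1 (hn : 2 ≤ n) : ∃ K : ℝ, 1 ≤ K ∧ ∀ (δ : ℝ), 0 < δ → δ < 1 → ∀ {ι : Type}
    (e : ι → E n), (∀ i, ‖e i‖ = 1) → (∀ i j, i ≠ j → δ ≤ ‖e i - e j‖) →
    ∀ (w : E n), ‖w‖ = 1 → ∀ (J : Finset ι) (φ : ℝ), δ ≤ φ →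
      (∀ j ∈ J, min ‖w - e j‖ ‖w + e j‖ ≤ φ) → (J.card : ℝ) ≤ K * (φ / δ) ^ (n - 1) := by
  classical
  obtain ⟨K, hK1, hK⟩ := count2 hn
  have key : ∀ (δ : ℝ), 0 < δ → δ < 1 → ∀ {ι : Type}
      (e : ι → E n), (∀ i, ‖e i‖ = 1) → (∀ i j, i ≠ j → δ ≤ ‖e i - e j‖) →
      ∀ (w : E n), ‖w‖ = 1 → ∀ (J : Finset ι) (φ : ℝ), δ ≤ φ →
        (∀ j ∈ J, ‖w - e j‖ ≤ φ) → (J.card : ℝ) ≤ K * (φ / δ) ^ (n - 1) := by
    intro δ hδ hδ1 ι e he hsep w hw J φ hφ hJ
    obtain ⟨v, hv, hwv⟩ := exists_orth hn hw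
    have h := hK δ hδ hδ1 e he hsep w v hw hv hwv J φ (3 * φ) hφ (by linarith) (fun j hj => by
      refine ⟨hJ j hj, ?_⟩
      have h2 : res w v (e j) = res w v (e j - w) := by
        rw [res_sub, res_w hw hwv, sub_zero]
      rw [h2]
      refine (res_norm hw hv _).trans ?_
      have := hJ j hj
      rw [norm_sub_rev] at this
      linarith)
    have hφ0 : 0 ≤ φ / δ := by
      have : 0 ≤ φ := by linarith
      positivity
    have h3 : min (φ / δ) (3 * φ / δ) = φ / δ := by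
      apply min_eq_left
      rw [mul_div_assoc]
      linarith
    rw [h3] at h
    refine h.trans (le_of_eq ?_)
    obtain ⟨m, rfl⟩ : ∃ m, n = m + 2 := ⟨n - 2, by omega⟩
    rw [show m + 2 - 1 = m + 1 by omega, show m + 2 - 2 = m by omega, pow_succ]
    ring
  refine ⟨2 * K, by linarith, ?_⟩
  intro δ hδ hδ1 ι e he hsep w hw J φ hφ hJ
  have h1 := key δ hδ hδ1 e he hsep w hw (J.filter fun j => ‖w - e j‖ ≤ φ) φ hφ
    (fun j hj => (Finset.mem_filter.1 hj).2)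
  have h2 := key δ hδ hδ1 (fun i => - e i) (fun i => by rw [norm_neg]; exact he i)
    (fun i j hij => by
      rw [show - e i - - e j = e j - e i by abel, norm_sub_rev]
      exact hsep i j hij) w hw (J.filter fun j => ‖w + e j‖ ≤ φ) φ hφ
    (fun j hj => by
      rw [sub_neg_eq_add]
      exact (Finset.mem_filter.1 hj).2)
  have h3 : J.card ≤ (J.filter fun j => ‖w - e j‖ ≤ φ).card +
      (J.filter fun j => ‖w + e j‖ ≤ φ).card := by
    refine le_trans (Finset.card_le_card ?_) (Finset.card_union_le _ _)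
    intro j hj
    rw [Finset.mem_union, Finset.mem_filter, Finset.mem_filter]
    rcases min_le_iff.1 (hJ j hj) with h | h
    · exact Or.inl ⟨hj, h⟩
    · exact Or.inr ⟨hj, h⟩
  have h4 : (J.card : ℝ) ≤ ((J.filter fun j => ‖w - e j‖ ≤ φ).card : ℝ) +
      ((J.filter fun j => ‖w + e j‖ ≤ φ).card : ℝ) := by exact_mod_cast h3
  linarith

end Q123.XP
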