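import Pool.Agent.Q123.XP.Weak

/-!
Families of tubes with few crossing places: the strong type inequality and the measure of sets.
-/

set_option autoImplicit false

open MeasureTheory Set Metric Module
open scoped ENNReal NNReal

namespace Q123.XP

open Pool.Agent.TH705.RR (E)
open Pool.Agent.Y254 (tube tube_meas Cv Cv_pos vol_near vol_tube)

variable {n : ℕ}

/-- the elementary integral -/
lemma int_rpow {N A r : ℝ} (hN : 0 ≤ N) (hA : 0 ≤ A) (hr : -1 < r) :
    ∫⁻ t in Ioc 0 N, ENNReal.ofReal (A * t ^ r) = ENNReal.ofReal (A * (N ^ (r + 1) / (r + 1))) := by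
  have h1 : IntegrableOn (fun t : ℝ => A * t ^ r) (Ioc 0 N) := by
    have := (intervalIntegral.intervalIntegrable_rpow' (a := 0) (b := N) hr).const_mul A
    rwa [intervalIntegrable_iff_integrableOn_Ioc_of_le hN] at this
  rw [← ofReal_integral_eq_lintegral_ofReal h1]
  · rw [← intervalIntegral.integral_of_le hN, intervalIntegral.integral_const_mul,
      integral_rpow (Or.inl hr), Real.zero_rpow (by linarith), sub_zero]
  · refine (ae_restrict_iff' measurableSet_Ioc).2 (ae_of_all _ fun t ht => ?_)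
    exact mul_nonneg hA (Real.rpow_nonneg ht.1.le _)

lemma aux_id {l w x y z : ℝ} (hy : y ≠ 0) (hx : x ≠ 0) (hz : z ≠ 0) :
    1 / (2 * x) * (y * l) / z * w = l * w / 2 / (x * z / y) := by
  field_simp

theorem strong (hn : 2 ≤ n) {q : ℝ} (hq : 1 + 1 / ((n : ℝ) - 1) < q) :
    ∃ C : ℝ, 0 < C ∧ ∀ (δ : ℝ), 0 < δ → δ < 1 → ∀ (ι : Type) [Fintype ι]
    (a e : ι → E n), (∀ i, ‖e i‖ = 1) → (∀ i j, i ≠ j → δ ≤ ‖e i - e j‖) →
    ∀ (K : ℝ), 0 < K → ∀ P : ι → Finset (E n), CrossNear K δ a e P →
      ∫⁻ x, ENNReal.ofReal (cnt δ a e x ^ q) ≤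
        ENNReal.ofReal (C * ((∑ i, (1 + K * (P i).card)) * (δ ^ (n - 1) *
          (Fintype.card ι : ℝ) ^ (q - 1 - 1 / ((n : ℝ) - 1))))) := by
  classical
  obtain ⟨C, hC, h⟩ := weak hn
  set d : ℝ := (n : ℝ) - 1 with hd
  have hd0 : 0 < d := by
    have : (2 : ℝ) ≤ n := by exact_mod_cast hn
    rw [hd]; linarith
  have hd1 : 0 < 1 / d := by positivity
  have hq0 : 0 < q := by linarith
  have hq1 : 0 < q - 1 - 1 / d := by linarith
  refine ⟨q * C / (q - 1 - 1 / d), by positivity, ?_⟩
  intro δ hδ hδ1 ι _ a e he hsep K hK P hP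
  set S : ℝ := ∑ i, (1 + K * ((P i).card : ℝ)) with hS
  have hS0 : 0 ≤ S := Finset.sum_nonneg fun i _ => by positivity
  set N : ℝ := (Fintype.card ι : ℝ) with hN
  have hN0 : 0 ≤ N := Nat.cast_nonneg _
  have hlc := lintegral_rpow_eq_lintegral_meas_lt_mul volume
    (ae_of_all _ (cnt_nonneg δ a e)) (cnt_meas δ a e).aemeasurable hq0
  rw [hlc]
  have h1 : ∫⁻ t in Ioi 0, volume {x : E n | t < cnt δ a e x} * ENNReal.ofReal (t ^ (q - 1)) ≤
      ∫⁻ t in Ioc 0 N, ENNReal.ofReal (C * (S * δ ^ (n - 1)) * t ^ (q - 2 - 1 / d)) := by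
    have h2 : ∫⁻ t in Ioi 0, volume {x : E n | t < cnt δ a e x} * ENNReal.ofReal (t ^ (q - 1)) ≤
        ∫⁻ t in Ioi 0, (Ioc 0 N).indicator
          (fun t => ENNReal.ofReal (C * (S * δ ^ (n - 1)) * t ^ (q - 2 - 1 / d))) t := by
      apply setLIntegral_mono_ae'
      · exact measurableSet_Ioi
      · refine ae_of_all _ fun t ht => ?_
        have ht : 0 < t := ht
        by_cases htN : t ≤ N
        · rw [indicator_of_mem (show t ∈ Ioc 0 N from ⟨ht, htN⟩)]
          have h3 := (h δ hδ hδ1 ι a e he hsep K hK P hP t ht).1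
          calc volume {x : E n | t < cnt δ a e x} * ENNReal.ofReal (t ^ (q - 1))
              ≤ ENNReal.ofReal (C * (S * (δ ^ (n - 1) * t ^ (-1 - 1 / d)))) *
                ENNReal.ofReal (t ^ (q - 1)) := mul_le_mul' h3 le_rfl
            _ = _ := by
                have e0 : 0 ≤ C * (S * (δ ^ (n - 1) * t ^ (-1 - 1 / d))) := by
                  have := Real.rpow_nonneg ht.le (-1 - 1 / d)
                  have := pow_nonneg hδ.le (n - 1)
                  exact mul_nonneg hC.le (mul_nonneg hS0 (mul_nonneg this (Real.rpow_nonneg ht.le _)))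
                rw [← ENNReal.ofReal_mul e0]
                congr 1
                rw [show q - 2 - 1 / d = (-1 - 1 / d) + (q - 1) by ring, Real.rpow_add ht]
                ring
        · have h4 : {x : E n | t < cnt δ a e x} = ∅ := by
            ext x
            simp only [mem_ofPred_eq, mem_empty_iff_false, iff_false, not_lt]
            exact (cnt_le δ a e x).trans (le_of_lt (not_le.1 htN))
          rw [h4, measure_empty, zero_mul]
          exact zero_le
    refine h2.trans (le_of_eq ?_)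
    rw [lintegral_indicator measurableSet_Ioc, Measure.restrict_restrict measurableSet_Ioc,
      inter_eq_left.2 (fun t ht => ht.1)]
  have e5 : 0 ≤ C * (S * δ ^ (n - 1)) := mul_nonneg hC.le (mul_nonneg hS0 (pow_nonneg hδ.le _))
  have e6 : -1 < q - 2 - 1 / d := by linarith
  rw [int_rpow hN0 e5 e6] at h1
  calc ENNReal.ofReal q * ∫⁻ t in Ioi 0, volume {x : E n | t < cnt δ a e x} *
        ENNReal.ofReal (t ^ (q - 1))
      ≤ ENNReal.ofReal q * ENNReal.ofReal (C * (S * δ ^ (n - 1)) *
          (N ^ (q - 2 - 1 / d + 1) / (q - 2 - 1 / d + 1))) := mul_le_mul' le_rfl h1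
    _ = _ := by
        rw [← ENNReal.ofReal_mul hq0.le]
        congr 1
        rw [show q - 2 - 1 / d + 1 = q - 1 - 1 / d by ring]
        field_simp

/-- the same in terms of the average number of crossing places -/
theorem strong' (hn : 2 ≤ n) {q : ℝ} (hq : 1 + 1 / ((n : ℝ) - 1) < q) :
    ∃ C : ℝ, 0 < C ∧ ∀ (δ : ℝ), 0 < δ → δ < 1 → ∀ (ι : Type) [Fintype ι]
    (a e : ι → E n), (∀ i, ‖e i‖ = 1) → (∀ i j, i ≠ j → δ ≤ ‖e i - e j‖) →
    ∀ (K M : ℝ), 0 < K → ∀ P : ι → Finset (E n), CrossNear K δ a e P →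
      ∑ i, ((P i).card : ℝ) ≤ M * Fintype.card ι →
      eLpNorm (cnt δ a e) (ENNReal.ofReal q) volume ≤
        ENNReal.ofReal (C * (1 + K * M) ^ (1 / q) * δ ^ (((n : ℝ) - 1) / q) *
          (Fintype.card ι : ℝ) ^ (1 - 1 / (q * ((n : ℝ) - 1)))) := by
  classical
  obtain ⟨C, hC, h⟩ := strong hn hq
  set d : ℝ := (n : ℝ) - 1 with hd
  have hd0 : 0 < d := by
    have : (2 : ℝ) ≤ n := by exact_mod_cast hn
    rw [hd]; linarith
  have hd1 : 0 < 1 / d := by positivity
  have hdn : ((n - 1 : ℕ) : ℝ) = d := by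
    rw [Nat.cast_sub (by omega), Nat.cast_one]
  have hq0 : 0 < q := by linarith
  have hq1 : 0 < q - 1 - 1 / d := by linarith
  refine ⟨C ^ (1 / q), by positivity, ?_⟩
  intro δ hδ hδ1 ι _ a e he hsep K M hK P hP hM
  rcases isEmpty_or_nonempty ι with hι | hι
  · have : cnt δ a e = 0 := by
      funext x
      unfold cnt
      simp
    rw [this, eLpNorm_zero]
    exact zero_le
  · set N : ℝ := (Fintype.card ι : ℝ) with hN
    have hN0 : 0 < N := Nat.cast_pos.2 Fintype.card_pos
    have hM0 : 0 ≤ M := by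
      by_contra hcon
      push Not at hcon
      have h1 : M * N < 0 := mul_neg_of_neg_of_pos hcon hN0
      have h2 : (0 : ℝ) ≤ ∑ i, ((P i).card : ℝ) := Finset.sum_nonneg fun i _ => Nat.cast_nonneg _
      linarith
    have h1 := h δ hδ hδ1 ι a e he hsep K hK P hP
    have h2 : ∑ i, (1 + K * ((P i).card : ℝ)) ≤ N * (1 + K * M) := by
      rw [Finset.sum_add_distrib, ← Finset.mul_sum, Finset.sum_const, Finset.card_univ,
        nsmul_eq_mul, mul_one]
      nlinarith [mul_le_mul_of_nonneg_left hM hK.le]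
    have h3 : ∫⁻ x, ENNReal.ofReal (cnt δ a e x ^ q) ≤
        ENNReal.ofReal (C * ((1 + K * M) * (δ ^ (n - 1) * N ^ (q - 1 / d)))) := by
      refine h1.trans (ENNReal.ofReal_le_ofReal ?_)
      calc C * ((∑ i, (1 + K * ((P i).card : ℝ))) * (δ ^ (n - 1) * N ^ (q - 1 - 1 / d)))
          ≤ C * ((N * (1 + K * M)) * (δ ^ (n - 1) * N ^ (q - 1 - 1 / d))) := by gcongr
        _ = C * ((1 + K * M) * (δ ^ (n - 1) * (N ^ (q - 1 - 1 / d) * N))) := by ring
        _ = _ := by
            have e1 : N ^ (q - 1 - 1 / d) * N = N ^ (q - 1 / d) := by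
              rw [← Real.rpow_add_one hN0.ne']
              congr 1
              ring
            rw [e1]
    rw [eLpNorm_eq_lintegral_rpow_enorm_toReal (by
      rw [ne_eq, ENNReal.ofReal_eq_zero, not_le]; exact hq0) ENNReal.ofReal_ne_top,
      ENNReal.toReal_ofReal hq0.le]
    have h4 : ∀ x, ‖cnt δ a e x‖ₑ ^ q = ENNReal.ofReal (cnt δ a e x ^ q) := by
      intro x
      rw [Real.enorm_of_nonneg (cnt_nonneg _ _ _ _),
        ENNReal.ofReal_rpow_of_nonneg (cnt_nonneg _ _ _ _) hq0.le]
    simp only [h4]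
    refine (ENNReal.rpow_le_rpow h3 (by positivity)).trans (le_of_eq ?_)
    rw [ENNReal.ofReal_rpow_of_nonneg (by positivity) (by positivity)]
    congr 1
    rw [Real.mul_rpow (by positivity) (by positivity), Real.mul_rpow (by positivity) (by positivity),
      Real.mul_rpow (by positivity) (by positivity), ← Real.rpow_natCast, ← Real.rpow_mul hδ.le,
      ← Real.rpow_mul hN0.le, hdn, show (q - 1 / d) * (1 / q) = 1 - 1 / (q * d) by field_simp,
      show d * (1 / q) = d / q by ring]
    ring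

/-- **measure of sets that contain a proportion of the tubes** -/
theorem sets (hn : 2 ≤ n) : ∃ c : ℝ, 0 < c ∧ ∀ (δ : ℝ), 0 < δ → δ < 1 → ∀ (ι : Type) [Fintype ι]
    (a e : ι → E n), (∀ i, ‖e i‖ = 1) → (∀ i j, i ≠ j → δ ≤ ‖e i - e j‖) →
    ∀ (K M : ℝ), 0 < K → ∀ P : ι → Finset (E n), CrossNear K δ a e P →
      ∑ i, ((P i).card : ℝ) ≤ M * Fintype.card ι →
      ∀ (lam : ℝ) (A : Set (E n)), 0 < lam → MeasurableSet A →
      ENNReal.ofReal (lam * (Fintype.card ι * δ ^ (n - 1))) ≤
        ∑ i, volume (tube δ (a i) (e i) ∩ A) →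
      ENNReal.ofReal (c * lam ^ n / (1 + K * M) ^ (n - 1) * (Fintype.card ι * δ ^ (n - 1))) ≤
        volume A := by
  classical
  obtain ⟨C, hC, h⟩ := weak hn
  set d : ℝ := (n : ℝ) - 1 with hd
  have hd0 : 0 < d := by
    have : (2 : ℝ) ≤ n := by exact_mod_cast hn
    rw [hd]; linarith
  have hdn : ((n - 1 : ℕ) : ℝ) = d := by
    rw [Nat.cast_sub (by omega), Nat.cast_one]
  refine ⟨1 / (2 * (2 * C) ^ (n - 1)), by positivity, ?_⟩
  intro δ hδ hδ1 ι _ a e he hsep K M hK P hP hM lam A hlam hA hsum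
  rcases isEmpty_or_nonempty ι with hι | hι
  · have : Fintype.card ι = 0 := Fintype.card_eq_zero
    rw [this, Nat.cast_zero, zero_mul, mul_zero, ENNReal.ofReal_zero]
    exact zero_le
  · set N : ℝ := (Fintype.card ι : ℝ) with hN
    have hN0 : 0 < N := Nat.cast_pos.2 Fintype.card_pos
    have hM0 : 0 ≤ M := by
      by_contra hcon
      push Not at hcon
      have h1 : M * N < 0 := mul_neg_of_neg_of_pos hcon hN0
      have h2 : (0 : ℝ) ≤ ∑ i, ((P i).card : ℝ) := Finset.sum_nonneg fun i _ => Nat.cast_nonneg _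
      linarith
    have hKM : 0 < 1 + K * M := by positivity
    have hδp : 0 < δ ^ (n - 1) := by positivity
    set b : ℝ := 2 * C * (1 + K * M) / lam with hb
    have hb0 : 0 < b := by positivity
    set s : ℝ := b ^ (n - 1) with hs
    have hs0 : 0 < s := by positivity
    have hsd : s ^ (-(1 / d)) = b⁻¹ := by
      rw [hs, ← Real.rpow_natCast, ← Real.rpow_mul hb0.le, hdn,
        show d * -(1 / d) = -1 by field_simp, Real.rpow_neg_one]
    have h2 : ∑ i, (1 + K * ((P i).card : ℝ)) ≤ N * (1 + K * M) := by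
      rw [Finset.sum_add_distrib, ← Finset.mul_sum, Finset.sum_const, Finset.card_univ,
        nsmul_eq_mul, mul_one]
      nlinarith [mul_le_mul_of_nonneg_left hM hK.le]
    have h3 := (h δ hδ hδ1 ι a e he hsep K hK P hP s hs0).2
    rw [hsd] at h3
    have h4 : C * ((∑ i, (1 + K * ((P i).card : ℝ))) * (δ ^ (n - 1) * b⁻¹)) ≤
        lam * (N * δ ^ (n - 1)) / 2 := by
      calc C * ((∑ i, (1 + K * ((P i).card : ℝ))) * (δ ^ (n - 1) * b⁻¹))
          ≤ C * ((N * (1 + K * M)) * (δ ^ (n - 1) * b⁻¹)) := by gcongr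
        _ = lam * (N * δ ^ (n - 1)) / 2 := by
            rw [hb]
            field_simp
    have hms : MeasurableSet {x | s < cnt δ a e x} :=
      measurableSet_lt measurable_const (cnt_meas δ a e)
    have h5 : ∑ i, volume (tube δ (a i) (e i) ∩ (A \ {x | s < cnt δ a e x})) ≤
        ENNReal.ofReal s * volume A := by
      calc ∑ i, volume (tube δ (a i) (e i) ∩ (A \ {x | s < cnt δ a e x}))
          = ∑ i, ∫⁻ x in (A \ {x | s < cnt δ a e x}),
              (tube δ (a i) (e i)).indicator (fun _ => (1 : ℝ≥0∞)) x := by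
            refine Finset.sum_congr rfl fun i _ => ?_
            rw [lintegral_indicator_const (tube_meas _ _ _), one_mul,
              Measure.restrict_apply (tube_meas _ _ _)]
        _ = ∫⁻ x in (A \ {x | s < cnt δ a e x}),
              ∑ i, (tube δ (a i) (e i)).indicator (fun _ => (1 : ℝ≥0∞)) x :=
            (lintegral_finsetSum _ fun i _ => measurable_const.indicator (tube_meas _ _ _)).symm
        _ ≤ ∫⁻ x in (A \ {x | s < cnt δ a e x}), ENNReal.ofReal s := by
            apply setLIntegral_mono measurable_const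
            intro x hx
            have h3 : ENNReal.ofReal (cnt δ a e x) =
                ∑ i, (tube δ (a i) (e i)).indicator (fun _ => (1 : ℝ≥0∞)) x := by
              unfold cnt
              rw [ENNReal.ofReal_sum_of_nonneg]
              · refine Finset.sum_congr rfl fun i _ => ?_
                by_cases h4 : x ∈ tube δ (a i) (e i)
                · rw [indicator_of_mem h4, indicator_of_mem h4, ENNReal.ofReal_one]
                · rw [indicator_of_notMem h4, indicator_of_notMem h4, ENNReal.ofReal_zero]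
              · intro i _
                exact indicator_nonneg (fun _ _ => zero_le_one) _
            rw [← h3]
            exact ENNReal.ofReal_le_ofReal (not_lt.1 hx.2)
        _ = ENNReal.ofReal s * volume (A \ {x | s < cnt δ a e x}) := by
            rw [lintegral_const, Measure.restrict_apply MeasurableSet.univ, univ_inter]
        _ ≤ _ := by
            gcongr
            exact sdiff_subset
    have h6 : ∑ i, volume (tube δ (a i) (e i) ∩ A) ≤
        ∑ i, volume (tube δ (a i) (e i) ∩ (A \ {x | s < cnt δ a e x})) +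
        ∑ i, volume (tube δ (a i) (e i) ∩ {x | s < cnt δ a e x}) := by
      rw [← Finset.sum_add_distrib]
      refine Finset.sum_le_sum fun i _ => ?_
      refine le_trans (measure_mono ?_) (measure_union_le _ _)
      rintro x ⟨hx1, hx2⟩
      by_cases hx : s < cnt δ a e x
      · exact Or.inr ⟨hx1, hx⟩
      · exact Or.inl ⟨hx1, hx2, hx⟩
    by_cases hAtop : volume A = ⊤
    · rw [hAtop]; exact le_top
    have h7 : ENNReal.ofReal (lam * (N * δ ^ (n - 1))) ≤
        ENNReal.ofReal (s * (volume A).toReal + lam * (N * δ ^ (n - 1)) / 2) := by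
      rw [ENNReal.ofReal_add (by positivity) (by positivity), ENNReal.ofReal_mul hs0.le,
        ENNReal.ofReal_toReal hAtop]
      exact hsum.trans (h6.trans (add_le_add h5 (h3.trans (ENNReal.ofReal_le_ofReal h4))))
    have h8 := (ENNReal.ofReal_le_ofReal_iff (by positivity)).1 h7
    rw [← ENNReal.ofReal_toReal hAtop]
    apply ENNReal.ofReal_le_ofReal
    have h9 : lam * (N * δ ^ (n - 1)) / 2 ≤ s * (volume A).toReal := by linarith
    have h10 : 1 / (2 * (2 * C) ^ (n - 1)) * lam ^ n / (1 + K * M) ^ (n - 1) * (N * δ ^ (n - 1)) =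
        lam * (N * δ ^ (n - 1)) / 2 / s := by
      have e1 : lam ^ n = lam ^ (n - 1) * lam := by
        rw [← pow_succ]
        congr 1
        omega
      have e2 : lam ^ (n - 1) ≠ 0 := by positivity
      have e3 : (2 * C) ^ (n - 1) ≠ 0 := by positivity
      have e4 : (1 + K * M) ^ (n - 1) ≠ 0 := by positivity
      rw [hs, hb, div_pow, mul_pow (2 * C), e1]
      exact aux_id e2 e3 e4
    rw [h10, div_le_iff₀ hs0]
    linarith

end Q123.XP
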