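import Pool.Agent.Q123.XP.Count

/-!
Families of tubes with few crossing places: distribution of the multiplicity function.
-/

set_option autoImplicit false

open MeasureTheory Set Metric Module
open scoped ENNReal NNReal

namespace Q123.XP

open Pool.Agent.TH705.RR (E)
open Pool.Agent.Y254 (tube tube_meas Cv Cv_pos vol_near vol_tube)

variable {n : ℕ}

/-- the multiplicity function of a family of tubes -/
noncomputable def cnt {ι : Type} [Fintype ι] (δ : ℝ) (a e : ι → E n) (x : E n) : ℝ :=
  ∑ j, (tube δ (a j) (e j)).indicator (fun _ => (1 : ℝ)) x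

/-- every crossing of the tube number `i` with another tube takes place at a point `x` that has
distance at most `K δ / (angle)` from one of the points of `P i` -/
def CrossNear {ι : Type} (K δ : ℝ) (a e : ι → E n) (P : ι → Finset (E n)) : Prop :=
  ∀ i j, i ≠ j → ∀ x ∈ tube δ (a i) (e i) ∩ tube δ (a j) (e j),
    ∃ p ∈ P i, ‖x - p‖ * min ‖e i - e j‖ ‖e i + e j‖ ≤ K * δ

section
variable {ι : Type} [Fintype ι]

open Classical in
lemma cnt_eq (δ : ℝ) (a e : ι → E n) (x : E n) :
    cnt δ a e x = ((Finset.univ.filter fun j => x ∈ tube δ (a j) (e j)).card : ℝ) := by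
  unfold cnt
  rw [Finset.card_eq_sum_ones]
  push_cast
  rw [Finset.sum_filter]
  refine Finset.sum_congr rfl fun j _ => ?_
  by_cases h : x ∈ tube δ (a j) (e j)
  · rw [indicator_of_mem h, if_pos h]
  · rw [indicator_of_notMem h, if_neg h]

lemma cnt_nonneg (δ : ℝ) (a e : ι → E n) (x : E n) : 0 ≤ cnt δ a e x := by
  classical
  rw [cnt_eq]
  exact Nat.cast_nonneg _

lemma cnt_le (δ : ℝ) (a e : ι → E n) (x : E n) : cnt δ a e x ≤ Fintype.card ι := by
  classical
  rw [cnt_eq]
  exact_mod_cast Finset.card_le_univ _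

lemma cnt_meas (δ : ℝ) (a e : ι → E n) : Measurable (cnt δ a e) := by
  unfold cnt
  exact Finset.measurable_sum _ fun j _ => measurable_const.indicator (tube_meas _ _ _)

end

/-- **distribution of the multiplicity function on one tube** -/
theorem distr (hn : 2 ≤ n) : ∃ C : ℝ, 0 < C ∧ ∀ (δ : ℝ), 0 < δ → δ < 1 → ∀ (ι : Type) [Fintype ι]
    (a e : ι → E n), (∀ i, ‖e i‖ = 1) → (∀ i j, i ≠ j → δ ≤ ‖e i - e j‖) →
    ∀ (K : ℝ), 0 < K → ∀ P : ι → Finset (E n), CrossNear K δ a e P → ∀ i, ∀ s : ℝ, 0 < s →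
      volume {x | x ∈ tube δ (a i) (e i) ∧ s < cnt δ a e x} ≤
        ENNReal.ofReal (C * ((1 + K * (P i).card) * (δ ^ (n - 1) * s ^ (-(1 / ((n : ℝ) - 1)))))) := by
  classical
  obtain ⟨c0, hc0, hcount⟩ := count1 hn
  have hCv := Cv_pos n
  set d : ℝ := (n : ℝ) - 1 with hd
  have hd0 : 0 < d := by
    have : (2 : ℝ) ≤ n := by exact_mod_cast hn
    rw [hd]; linarith
  have hdn : ((n - 1 : ℕ) : ℝ) = d := by
    rw [Nat.cast_sub (by omega), Nat.cast_one]
  have hc0' : 0 < c0 := by linarith
  refine ⟨Cv n * 2 * c0 ^ (1 / d), by positivity, ?_⟩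
  intro δ hδ hδ1 ι _ a e he hsep K hK P hP i s hs
  have hδp : 0 < δ ^ (n - 1) := by positivity
  have hscale : c0 ^ (1 / d) * s ^ (-(1 / d)) = (c0 / s) ^ (1 / d) := by
    rw [Real.rpow_neg hs.le, Real.div_rpow hc0'.le hs.le]
    exact (div_eq_mul_inv _ _).symm
  rcases lt_or_ge s c0 with h1 | h1
  · -- small `s`: the volume of the tube
    have h2 : 1 ≤ (c0 / s) ^ (1 / d) := by
      apply Real.one_le_rpow
      · rw [le_div_iff₀ hs]; linarith
      · positivity
    refine le_trans (measure_mono (fun x hx => hx.1)) ((vol_tube (by omega) (he i) hδ hδ1).trans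
      (ENNReal.ofReal_le_ofReal ?_))
    calc Cv n * 2 * δ ^ (n - 1) = Cv n * 2 * δ ^ (n - 1) * 1 * 1 := by ring
      _ ≤ Cv n * 2 * δ ^ (n - 1) * (c0 / s) ^ (1 / d) * (1 + K * (P i).card) := by
          gcongr
          have : (0 : ℝ) ≤ K * (P i).card := by positivity
          linarith
      _ = _ := by rw [← hscale]; ring
  · set R : ℝ := K * (c0 / s) ^ (1 / d) with hR
    have hR0 : 0 < R := by positivity
    have hsub : {x | x ∈ tube δ (a i) (e i) ∧ s < cnt δ a e x} ⊆
        ⋃ p ∈ P i, {x | x ∈ tube δ (a i) (e i) ∧ ‖x - p‖ ≤ R} := by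
      rintro x ⟨hxi, hxs⟩
      set J := Finset.univ.filter fun j => x ∈ tube δ (a j) (e j) with hJ
      rw [cnt_eq, ← hJ] at hxs
      have hJ1 : 1 < J.card := by
        have : (1 : ℝ) < J.card := by linarith
        exact_mod_cast this
      obtain ⟨j, hjJ, hji⟩ := Finset.exists_mem_ne hJ1 i
      obtain ⟨p1, hp1, -⟩ := hP i j hji.symm x ⟨hxi, (Finset.mem_filter.1 hjJ).2⟩
      obtain ⟨p, hp, hpmin⟩ := Finset.exists_min_image (P i) (fun p => ‖x - p‖) ⟨p1, hp1⟩
      refine mem_iUnion₂.2 ⟨p, hp, hxi, ?_⟩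
      by_contra hcon
      push Not at hcon
      have hxp : 0 < ‖x - p‖ := hR0.trans hcon
      have hang : ∀ j ∈ J, min ‖e i - e j‖ ‖e i + e j‖ ≤ max δ (K * δ / ‖x - p‖) := by
        intro j hj
        by_cases hij : i = j
        · subst hij
          refine (min_le_left _ _).trans ?_
          rw [sub_self, norm_zero]
          exact hδ.le.trans (le_max_left _ _)
        · obtain ⟨p', hp', h5⟩ := hP i j hij x ⟨hxi, (Finset.mem_filter.1 hj).2⟩
          refine le_trans ?_ (le_max_right _ _)
          rw [le_div_iff₀ hxp]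
          refine le_trans ?_ h5
          rw [mul_comm]
          apply mul_le_mul_of_nonneg_right (hpmin p' hp')
          exact le_min (norm_nonneg _) (norm_nonneg _)
      have h6 := hcount δ hδ hδ1 e he hsep (e i) (he i) J _ (le_max_left _ _) hang
      have h7 : max δ (K * δ / ‖x - p‖) / δ ≤ (s / c0) ^ (1 / d) := by
        rw [div_le_iff₀ hδ]
        apply max_le
        · have : 1 ≤ (s / c0) ^ (1 / d) := by
            apply Real.one_le_rpow
            · rw [le_div_iff₀ hc0']; linarith
            · positivity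
          nlinarith
        · rw [div_le_iff₀ hxp]
          have h8 : K ≤ (s / c0) ^ (1 / d) * ‖x - p‖ := by
            calc K = (s / c0) ^ (1 / d) * R := by
                  rw [hR, mul_comm K, ← mul_assoc, ← Real.mul_rpow (by positivity) (by positivity),
                    div_mul_div_comm, mul_comm s c0, div_self (by positivity), Real.one_rpow, one_mul]
              _ ≤ _ := by
                  apply mul_le_mul_of_nonneg_left hcon.le
                  positivity
          nlinarith
      have h9 : (max δ (K * δ / ‖x - p‖) / δ) ^ (n - 1) ≤ s / c0 := by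
        calc (max δ (K * δ / ‖x - p‖) / δ) ^ (n - 1) ≤ ((s / c0) ^ (1 / d)) ^ (n - 1) := by
              apply pow_le_pow_left₀ _ h7
              have := hδ.le.trans (le_max_left δ (K * δ / ‖x - p‖))
              positivity
          _ = s / c0 := by
              rw [← Real.rpow_natCast, ← Real.rpow_mul (by positivity), hdn,
                one_div_mul_cancel hd0.ne', Real.rpow_one]
      have h10 : (J.card : ℝ) ≤ s := by
        calc (J.card : ℝ) ≤ c0 * (max δ (K * δ / ‖x - p‖) / δ) ^ (n - 1) := h6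
          _ ≤ c0 * (s / c0) := by gcongr
          _ = s := by field_simp
      linarith
    refine (measure_mono hsub).trans ((measure_biUnion_finset_le _ _).trans ?_)
    calc ∑ p ∈ P i, volume {x | x ∈ tube δ (a i) (e i) ∧ ‖x - p‖ ≤ R}
        ≤ ∑ p ∈ P i, ENNReal.ofReal (Cv n * R * δ ^ (n - 1)) :=
          Finset.sum_le_sum fun p _ => vol_near (by omega) (he i) hδ hR0 p
      _ = ENNReal.ofReal ((P i).card * (Cv n * R * δ ^ (n - 1))) := by
          rw [Finset.sum_const, nsmul_eq_mul, ENNReal.ofReal_mul (Nat.cast_nonneg _),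
            ENNReal.ofReal_natCast]
      _ ≤ _ := by
          apply ENNReal.ofReal_le_ofReal
          rw [hR, ← hscale]
          have h11 : (0 : ℝ) ≤ (P i).card := Nat.cast_nonneg _
          have h12 : 0 ≤ Cv n * c0 ^ (1 / d) * (δ ^ (n - 1) * s ^ (-(1 / d))) := by positivity
          nlinarith [mul_nonneg (mul_nonneg hK.le h11) h12]

/-- **the weak type inequality at the critical exponent** -/
theorem weak (hn : 2 ≤ n) : ∃ C : ℝ, 0 < C ∧ ∀ (δ : ℝ), 0 < δ → δ < 1 → ∀ (ι : Type) [Fintype ι]
    (a e : ι → E n), (∀ i, ‖e i‖ = 1) → (∀ i j, i ≠ j → δ ≤ ‖e i - e j‖) →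
    ∀ (K : ℝ), 0 < K → ∀ P : ι → Finset (E n), CrossNear K δ a e P → ∀ s : ℝ, 0 < s →
      volume {x | s < cnt δ a e x} ≤
        ENNReal.ofReal (C * ((∑ i, (1 + K * (P i).card)) *
          (δ ^ (n - 1) * s ^ (-1 - 1 / ((n : ℝ) - 1))))) ∧
      ∑ i, volume (tube δ (a i) (e i) ∩ {x | s < cnt δ a e x}) ≤
        ENNReal.ofReal (C * ((∑ i, (1 + K * (P i).card)) *
          (δ ^ (n - 1) * s ^ (-(1 / ((n : ℝ) - 1)))))) := by
  classical
  obtain ⟨C, hC, h⟩ := distr hn
  refine ⟨C, hC, ?_⟩
  intro δ hδ hδ1 ι _ a e he hsep K hK P hP s hs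
  have h1 : ∑ i, volume (tube δ (a i) (e i) ∩ {x | s < cnt δ a e x}) ≤
        ENNReal.ofReal (C * ((∑ i, (1 + K * (P i).card)) *
          (δ ^ (n - 1) * s ^ (-(1 / ((n : ℝ) - 1)))))) := by
    calc ∑ i, volume (tube δ (a i) (e i) ∩ {x | s < cnt δ a e x})
        ≤ ∑ i, ENNReal.ofReal (C * ((1 + K * (P i).card) *
            (δ ^ (n - 1) * s ^ (-(1 / ((n : ℝ) - 1)))))) :=
          Finset.sum_le_sum fun i _ => h δ hδ hδ1 ι a e he hsep K hK P hP i s hs
      _ = _ := by
          rw [← ENNReal.ofReal_sum_of_nonneg]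
          · rw [← Finset.mul_sum, ← Finset.sum_mul]
          · intro i _
            positivity
  refine ⟨?_, h1⟩
  have hm := cnt_meas δ a e
  have hms : MeasurableSet {x | s < cnt δ a e x} := measurableSet_lt measurable_const hm
  have h2 : ENNReal.ofReal s * volume {x | s < cnt δ a e x} ≤
      ∑ i, volume (tube δ (a i) (e i) ∩ {x | s < cnt δ a e x}) := by
    calc ENNReal.ofReal s * volume {x | s < cnt δ a e x}
        = ∫⁻ x in {x | s < cnt δ a e x}, ENNReal.ofReal s := by
          rw [lintegral_const, Measure.restrict_apply MeasurableSet.univ, univ_inter]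
      _ ≤ ∫⁻ x in {x | s < cnt δ a e x}, ∑ i, (tube δ (a i) (e i)).indicator (fun _ => (1 : ℝ≥0∞)) x := by
          apply setLIntegral_mono
          · exact Finset.measurable_sum _ fun j _ => measurable_const.indicator (tube_meas _ _ _)
          · intro x hx
            have h3 : ENNReal.ofReal (cnt δ a e x) =
                ∑ i, (tube δ (a i) (e i)).indicator (fun _ => (1 : ℝ≥0∞)) x := by
              unfold cnt
              rw [ENNReal.ofReal_sum_of_nonneg]
              · refine Finset.sum_congr rfl fun i _ => ?_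
                by_cases h4 : x ∈ tube δ (a i) (e i)
                · rw [indicator_of_mem h4, indicator_of_mem h4, ENNReal.ofReal_one]
                · rw [indicator_of_notMem h4, indicator_of_notMem h4, ENNReal.ofReal_zero]
              · intro i _
                exact indicator_nonneg (fun _ _ => zero_le_one) _
            rw [← h3]
            exact ENNReal.ofReal_le_ofReal (le_of_lt hx)
      _ = ∑ i, ∫⁻ x in {x | s < cnt δ a e x}, (tube δ (a i) (e i)).indicator (fun _ => (1 : ℝ≥0∞)) x :=
          lintegral_finsetSum _ fun i _ => measurable_const.indicator (tube_meas _ _ _)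
      _ = _ := by
          refine Finset.sum_congr rfl fun i _ => ?_
          rw [lintegral_indicator_const (tube_meas _ _ _), one_mul,
            Measure.restrict_apply (tube_meas _ _ _)]
  have h3 := h2.trans h1
  have hs0 : ENNReal.ofReal s ≠ 0 := by
    rw [Ne, ENNReal.ofReal_eq_zero, not_le]
    exact hs
  rw [← ENNReal.mul_le_mul_iff_right hs0 ENNReal.ofReal_ne_top, ← ENNReal.ofReal_mul hs.le]
  refine h3.trans (ENNReal.ofReal_le_ofReal (le_of_eq ?_))
  rw [show (-1 - 1 / ((n : ℝ) - 1)) = -(1 / ((n : ℝ) - 1)) - 1 by ring, Real.rpow_sub_one hs.ne']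
  field_simp

end Q123.XP
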